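import Pool.Agent.Helper40.Nil.Stmts

/-!
Normalized positive definite functions: elementary properties and compactness.
-/

namespace Pool.Agent.Helper5.Nil

open Pool.Agent.Helper40.Nil
open Filter Topology
open scoped ComplexConjugate InnerProductSpace

universe u v

variable {V : Type u} [Group V]

/-- the form of a function -/
noncomputable def kcS (φ : V → ℂ) (s : Finset V) (c : V → ℂ) : ℂ :=
  ∑ x ∈ s, ∑ y ∈ s, conj (c x) * c y * φ (x⁻¹ * y)

theorem kc_pair [DecidableEq V] {φ : V → ℂ} (h1 : φ 1 = 1) {x : V} (hx : x ≠ 1) (a b : ℂ) :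
    kcS φ {1, x} (fun y => if y = 1 then a else b) =
      conj a * a + conj a * b * φ x + conj b * a * φ x⁻¹ + conj b * b := by
  unfold kcS
  have hx' : (1 : V) ∉ ({x} : Finset V) := by simpa using hx.symm
  rw [Finset.sum_insert hx', Finset.sum_singleton, Finset.sum_insert hx', Finset.sum_singleton,
    Finset.sum_insert hx', Finset.sum_singleton]
  simp only [if_true, if_neg hx, inv_one, one_mul, mul_one, inv_mul_cancel, h1]
  ring

theorem kc_basic {φ : V → ℂ} (h : φ ∈ KK V) (x : V) : ‖φ x‖ ≤ 1 ∧ φ x⁻¹ = conj (φ x) := by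
  classical
  obtain ⟨hpd, h1⟩ := h
  by_cases hx : x = 1
  · subst hx
    rw [inv_one, h1]
    simp
  · have key : ∀ a b : ℂ, 0 ≤ (conj a * a + conj a * b * φ x + conj b * a * φ x⁻¹ +
        conj b * b).re ∧ (conj a * a + conj a * b * φ x + conj b * a * φ x⁻¹ + conj b * b).im = 0 := by
      intro a b
      rw [← kc_pair h1 hx a b]
      exact hpd _ _
    have e1 := (key 1 1).2
    have e2 := (key 1 Complex.I).2
    simp at e1 e2
    have hinv : φ x⁻¹ = conj (φ x) := by
      apply Complex.ext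
      · rw [Complex.conj_re]
        linarith
      · rw [Complex.conj_im]
        linarith
    refine ⟨?_, hinv⟩
    have e3 := (key 1 (-conj (φ x))).1
    rw [hinv] at e3
    have e4 : (‖φ x‖ : ℝ) ^ 2 = (φ x).re ^ 2 + (φ x).im ^ 2 := by
      rw [← Complex.normSq_eq_norm_sq, Complex.normSq_apply]
      ring
    simp at e3
    have e5 : (‖φ x‖ : ℝ) ^ 2 ≤ 1 := by
      rw [e4]
      nlinarith
    nlinarith [norm_nonneg (φ x)]

theorem kc_cont (s : Finset V) (c : V → ℂ) : Continuous (fun φ : V → ℂ => kcS φ s c) := by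
  unfold kcS
  refine continuous_finsetSum _ fun x _ => continuous_finsetSum _ fun y _ => ?_
  exact continuous_const.mul (continuous_apply _)

theorem kc_closed : IsClosed (KK V) := by
  have e : KK V = (⋂ s : Finset V, ⋂ c : V → ℂ,
      {φ : V → ℂ | 0 ≤ (kcS φ s c).re} ∩ {φ | (kcS φ s c).im = 0}) ∩ {φ | φ 1 = 1} := by
    ext φ
    simp only [Set.mem_inter_iff, Set.mem_iInter, Set.mem_ofPred_eq]
    rfl
  rw [e]
  refine IsClosed.inter (isClosed_iInter fun s => isClosed_iInter fun c => IsClosed.inter ?_ ?_) ?_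
  · exact isClosed_le continuous_const (Complex.continuous_re.comp (kc_cont s c))
  · exact isClosed_eq (Complex.continuous_im.comp (kc_cont s c)) continuous_const
  · exact isClosed_eq (continuous_apply _) continuous_const

theorem kc_compact : IsCompact (KK V) := by
  refine IsCompact.of_isClosed_subset
    (isCompact_univ_pi (fun _ : V => isCompact_closedBall (0 : ℂ) 1)) kc_closed ?_
  intro φ hφ x _
  rw [mem_closedBall_zero_iff]
  exact (kc_basic hφ x).1

theorem kc_convex : Convex ℝ (KK V) := by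
  intro φ hφ ψ hψ a b ha hb hab
  refine ⟨fun s c => ?_, ?_⟩
  · have e : (∑ x ∈ s, ∑ y ∈ s, conj (c x) * c y * (a • φ + b • ψ) (x⁻¹ * y)) =
        (a : ℂ) * kcS φ s c + (b : ℂ) * kcS ψ s c := by
      unfold kcS
      rw [Finset.mul_sum, Finset.mul_sum, ← Finset.sum_add_distrib]
      refine Finset.sum_congr rfl fun x _ => ?_
      rw [Finset.mul_sum, Finset.mul_sum, ← Finset.sum_add_distrib]
      refine Finset.sum_congr rfl fun y _ => ?_
      simp only [Pi.add_apply, Pi.smul_apply, Complex.real_smul]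
      ring
    rw [e]
    have h1 := hφ.1 s c
    have h2 := hψ.1 s c
    change 0 ≤ (kcS φ s c).re ∧ (kcS φ s c).im = 0 at h1
    change 0 ≤ (kcS ψ s c).re ∧ (kcS ψ s c).im = 0 at h2
    constructor
    · rw [Complex.add_re, Complex.re_ofReal_mul, Complex.re_ofReal_mul]
      exact add_nonneg (mul_nonneg ha h1.1) (mul_nonneg hb h2.1)
    · rw [Complex.add_im, Complex.im_ofReal_mul, Complex.im_ofReal_mul, h1.2, h2.2]
      ring
  · simp only [Pi.add_apply, Pi.smul_apply, Complex.real_smul, hφ.2, hψ.2]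
    rw [mul_one, mul_one]
    exact_mod_cast hab

theorem kc_coef (E : Type v) [NormedAddCommGroup E] [InnerProductSpace ℂ E]
    (π : V →* (E ≃ₗᵢ[ℂ] E)) (ζ : E) (hζ : ‖ζ‖ = 1) : (fun x => ⟪ζ, π x ζ⟫_ℂ) ∈ KK V := by
  refine ⟨fun s c => ?_, ?_⟩
  · have e : (∑ x ∈ s, ∑ y ∈ s, conj (c x) * c y * ⟪ζ, π (x⁻¹ * y) ζ⟫_ℂ) =
        ⟪∑ x ∈ s, c x • π x ζ, ∑ x ∈ s, c x • π x ζ⟫_ℂ := by
      rw [sum_inner]
      refine Finset.sum_congr rfl fun x _ => ?_
      rw [inner_sum]
      refine Finset.sum_congr rfl fun y _ => ?_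
      rw [inner_smul_left, inner_smul_right]
      have e1 : π y ζ = π x (π (x⁻¹ * y) ζ) := by
        have : π y = π x * π (x⁻¹ * y) := by rw [← map_mul, mul_inv_cancel_left]
        rw [this]
        rfl
      rw [e1, LinearIsometryEquiv.inner_map_map]
      ring
    have e2 : ∀ w : E, 0 ≤ (⟪w, w⟫_ℂ).re ∧ (⟪w, w⟫_ℂ).im = 0 := by
      intro w
      refine ⟨?_, ?_⟩
      · exact inner_self_nonneg (𝕜 := ℂ)
      · exact inner_self_im (𝕜 := ℂ) w
    rw [e]
    exact e2 _
  · show ⟪ζ, π 1 ζ⟫_ℂ = 1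
    rw [map_one]
    show ⟪ζ, ζ⟫_ℂ = 1
    rw [inner_self_eq_norm_sq_to_K, hζ]
    simp

theorem st_KC : ST_KC.{u, v} := by
  intro V _
  exact ⟨kc_compact, kc_convex, fun φ hφ x => kc_basic hφ x, fun E _ _ π ζ hζ => kc_coef E π ζ hζ⟩

end Pool.Agent.Helper5.Nil
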