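import Pool.Agent.Helper40.Nil.Stmts2

/-!
Powers of two elements with unipotent action on the abelianized commutator subgroup.
-/

namespace Pool.Agent.Helper5.Nil

open Pool.Agent.Helper40.Nil
open scoped commutatorElement

universe u

section
variable {G : Type u} [Group G]

/-- the abelianized commutator subgroup, written additively -/
abbrev NilpE (G : Type u) [Group G] : Type u := Additive (Abelianization ↥(commutator G))

/-- the class of an element -/
def nilpCls (x : ↥(commutator G)) : NilpE G := Additive.ofMul (Abelianization.of x)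

theorem nilpCls_mul (x y : ↥(commutator G)) : nilpCls (x * y) = nilpCls x + nilpCls y := by
  unfold nilpCls
  rw [map_mul]
  rfl

theorem nilpCls_one : nilpCls (1 : ↥(commutator G)) = 0 := by
  unfold nilpCls
  rw [map_one]
  rfl

theorem nilpCls_inv (x : ↥(commutator G)) : nilpCls x⁻¹ = -nilpCls x := by
  unfold nilpCls
  rw [map_inv]
  rfl

theorem nilpCls_surj : Function.Surjective (nilpCls (G := G)) := by
  intro v
  obtain ⟨x, hx⟩ := QuotientGroup.mk_surjective (Additive.toMul v)
  exact ⟨x, hx⟩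

theorem nilpCls_eq_zero (x : ↥(commutator G)) :
    nilpCls x = 0 ↔ (x : G) ∈ ⁅commutator G, commutator G⁆ := by
  rw [← Subgroup.map_subtype_commutator]
  have e : nilpCls x = 0 ↔ x ∈ commutator ↥(commutator G) := by
    constructor
    · intro h
      have h2 : x ∈ (Abelianization.of (G := ↥(commutator G))).ker := h
      rwa [Abelianization.ker_of] at h2
    · intro h
      have h2 : x ∈ (Abelianization.of (G := ↥(commutator G))).ker := by
        rwa [Abelianization.ker_of]
      exact h2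
  rw [e]
  constructor
  · intro h
    exact ⟨x, h, rfl⟩
  · rintro ⟨y, hy, hyx⟩
    have : y = x := Subtype.ext hyx
    rw [← this]
    exact hy

/-- the action by conjugation -/
def nilpR (g : G) : AddMonoid.End (NilpE G) :=
  MonoidHom.toAdditive (Abelianization.map (MulAut.conjNormal (H := commutator G) g).toMonoidHom)

theorem nilpR_cls (g : G) (x : ↥(commutator G)) :
    nilpR g (nilpCls x) = nilpCls (MulAut.conjNormal g x) := rfl

theorem nilp_ext {P Q : AddMonoid.End (NilpE G)} (h : ∀ x, P (nilpCls x) = Q (nilpCls x)) :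
    P = Q := by
  refine AddMonoidHom.ext fun v => ?_
  obtain ⟨x, rfl⟩ := nilpCls_surj v
  exact h x

theorem nilpR_one : nilpR (1 : G) = 1 := by
  refine nilp_ext fun x => ?_
  rw [nilpR_cls, map_one]
  rfl

theorem nilpR_mul (g h : G) : nilpR (g * h) = nilpR g * nilpR h := by
  refine nilp_ext fun x => ?_
  have e : (nilpR g * nilpR h) (nilpCls x) = nilpR g (nilpR h (nilpCls x)) := rfl
  rw [e, nilpR_cls, nilpR_cls, nilpR_cls, map_mul]
  rfl

theorem nilpR_pow (g : G) : ∀ n : ℕ, nilpR (g ^ n) = nilpR g ^ n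
  | 0 => by rw [pow_zero, pow_zero, nilpR_one]
  | n + 1 => by rw [pow_succ, pow_succ, nilpR_mul, nilpR_pow g n]

theorem nilpR_mem {d : G} (hd : d ∈ commutator G) : nilpR d = 1 := by
  refine nilp_ext fun x => ?_
  rw [nilpR_cls]
  have e : MulAut.conjNormal d x = (⟨d, hd⟩ : ↥(commutator G)) * x * (⟨d, hd⟩ : ↥(commutator G))⁻¹ :=
    Subtype.ext (by simp)
  rw [e, nilpCls_mul, nilpCls_mul, nilpCls_inv]
  show _ = nilpCls x
  abel

theorem nilpR_commute (g h : G) : nilpR g * nilpR h = nilpR h * nilpR g := by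
  rw [← nilpR_mul, ← nilpR_mul]
  have e : g * h = ⁅g, h⁆ * (h * g) := by
    rw [commutatorElement_def]
    group
  rw [e, nilpR_mul, nilpR_mem (Subgroup.commutator_mem_commutator (Subgroup.mem_top g)
    (Subgroup.mem_top h)), one_mul]

/-- the commutator map on the commutator subgroup -/
def nilpF (z : G) (x : ↥(commutator G)) : ↥(commutator G) := MulAut.conjNormal z x * x⁻¹

theorem nilpF_cls (z : G) (x : ↥(commutator G)) :
    nilpCls (nilpF z x) = (nilpR z - 1) (nilpCls x) := by
  unfold nilpF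
  rw [nilpCls_mul, nilpCls_inv, ← nilpR_cls, sub_eq_add_neg]
  rfl

theorem nilpF_iter (z : G) (x : ↥(commutator G)) : ∀ e : ℕ,
    nilpCls ((nilpF z)^[e] x) = ((nilpR z - 1) ^ e) (nilpCls x) ∧
      (((nilpF z)^[e] x : ↥(commutator G)) : G) = (fun y => z * y * z⁻¹ * y⁻¹)^[e] (x : G)
  | 0 => ⟨rfl, rfl⟩
  | e + 1 => by
    obtain ⟨h1, h2⟩ := nilpF_iter z x e
    rw [Function.iterate_succ_apply', Function.iterate_succ_apply', nilpF_cls, h1, pow_succ']
    refine ⟨rfl, ?_⟩
    rw [← h2]
    unfold nilpF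
    simp

/-- an operator that kills the class of the commutator of the generators -/
theorem nilp_kill {a b : G} (hgen : Subgroup.closure {a, b} = ⊤) (P : AddMonoid.End (NilpE G))
    (hP : ∀ g, P * nilpR g = nilpR g * P) (hc : a * b * a⁻¹ * b⁻¹ ∈ commutator G)
    (h0 : P (nilpCls ⟨a * b * a⁻¹ * b⁻¹, hc⟩) = 0) : P = 0 := by
  let T : Subgroup G :=
    { carrier := {y | ∃ h : y ∈ commutator G, P (nilpCls ⟨y, h⟩) = 0}
      one_mem' := ⟨one_mem _, by
        have : (⟨1, one_mem _⟩ : ↥(commutator G)) = 1 := rfl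
        rw [this, nilpCls_one, map_zero]⟩
      mul_mem' := by
        rintro x y ⟨hx, h1⟩ ⟨hy, h2⟩
        refine ⟨mul_mem hx hy, ?_⟩
        have : (⟨x * y, mul_mem hx hy⟩ : ↥(commutator G)) = ⟨x, hx⟩ * ⟨y, hy⟩ := rfl
        rw [this, nilpCls_mul, map_add, h1, h2, add_zero]
      inv_mem' := by
        rintro x ⟨hx, h1⟩
        refine ⟨inv_mem hx, ?_⟩
        have : (⟨x⁻¹, inv_mem hx⟩ : ↥(commutator G)) = ⟨x, hx⟩⁻¹ := rfl
        rw [this, nilpCls_inv, map_neg, h1, neg_zero] }
  have hTn : T.Normal := by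
    refine ⟨fun x hx g => ?_⟩
    obtain ⟨hx, h1⟩ := hx
    have hm : g * x * g⁻¹ ∈ commutator G :=
      (inferInstance : (commutator G).Normal).conj_mem x hx g
    refine ⟨hm, ?_⟩
    have e : nilpCls (⟨g * x * g⁻¹, hm⟩ : ↥(commutator G)) = nilpR g (nilpCls ⟨x, hx⟩) := by
      rw [nilpR_cls]
      exact congrArg nilpCls (Subtype.ext (by simp))
    have e2 : P (nilpR g (nilpCls ⟨x, hx⟩)) = nilpR g (P (nilpCls ⟨x, hx⟩)) := by
      have := congrArg (fun f : AddMonoid.End (NilpE G) => f (nilpCls ⟨x, hx⟩)) (hP g)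
      exact this
    rw [e, e2, h1, map_zero]
  have hcT : a * b * a⁻¹ * b⁻¹ ∈ T := ⟨hc, h0⟩
  have key : ∀ g h : G, ⁅g, h⁆ ∈ T := by
    have hab : (QuotientGroup.mk' T a) * (QuotientGroup.mk' T b) =
        (QuotientGroup.mk' T b) * (QuotientGroup.mk' T a) := by
      have h1 : QuotientGroup.mk' T (a * b * a⁻¹ * b⁻¹) = 1 :=
        (QuotientGroup.eq_one_iff _).mpr hcT
      rw [map_mul, map_mul, map_mul, map_inv, map_inv] at h1
      have h2 := mul_inv_eq_one.mp h1
      exact mul_inv_eq_iff_eq_mul.mp h2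
    have hcen : ∀ (d : G), (∀ s ∈ ({a, b} : Set G), (QuotientGroup.mk' T s) * (QuotientGroup.mk' T d) =
        (QuotientGroup.mk' T d) * (QuotientGroup.mk' T s)) → ∀ g : G,
        (QuotientGroup.mk' T g) * (QuotientGroup.mk' T d) =
        (QuotientGroup.mk' T d) * (QuotientGroup.mk' T g) := by
      intro d hd g
      have hle : Subgroup.closure {a, b} ≤
          (Subgroup.centralizer {QuotientGroup.mk' T d}).comap (QuotientGroup.mk' T) := by
        rw [Subgroup.closure_le]
        intro s hs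
        rw [SetLike.mem_coe, Subgroup.mem_comap, Subgroup.mem_centralizer_singleton_iff]
        exact (hd s hs)
      have hg : g ∈ (Subgroup.centralizer {QuotientGroup.mk' T d}).comap (QuotientGroup.mk' T) :=
        hle (by rw [hgen]; exact Subgroup.mem_top g)
      rw [Subgroup.mem_comap, Subgroup.mem_centralizer_singleton_iff] at hg
      exact hg
    have ha : ∀ g : G, (QuotientGroup.mk' T g) * (QuotientGroup.mk' T a) =
        (QuotientGroup.mk' T a) * (QuotientGroup.mk' T g) := by
      refine hcen a ?_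
      rintro s (rfl | hs)
      · rfl
      · rw [Set.mem_singleton_iff] at hs
        rw [hs]
        exact hab.symm
    have hb : ∀ g : G, (QuotientGroup.mk' T g) * (QuotientGroup.mk' T b) =
        (QuotientGroup.mk' T b) * (QuotientGroup.mk' T g) := by
      refine hcen b ?_
      rintro s (rfl | hs)
      · exact hab
      · rw [Set.mem_singleton_iff] at hs
        rw [hs]
    intro g h
    have hall : (QuotientGroup.mk' T g) * (QuotientGroup.mk' T h) =
        (QuotientGroup.mk' T h) * (QuotientGroup.mk' T g) := by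
      refine hcen h ?_ g
      rintro s (rfl | hs)
      · exact (ha h).symm
      · rw [Set.mem_singleton_iff] at hs
        rw [hs]
        exact (hb h).symm
    rw [← QuotientGroup.eq_one_iff (N := T)]
    show QuotientGroup.mk' T ⁅g, h⁆ = 1
    rw [commutatorElement_def, map_mul, map_mul, map_mul, map_inv, map_inv, hall]
    group
  have hle : commutator G ≤ T := by
    rw [commutator_def, Subgroup.commutator_le]
    intro g _ h _
    exact key g h
  refine nilp_ext fun x => ?_
  obtain ⟨_, h2⟩ := hle x.2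
  rw [h2]
  rfl

/-- a nilpotency criterion for quotients -/
theorem nilp_quot {L : Type u} [Group L] (M : Subgroup L) [M.Normal] (r : ℕ) (S : ℕ → Subgroup L)
    (h0 : S 0 ≤ M) (hstep : ∀ (x : L) (n : ℕ), n < r → x ∈ S (n + 1) → ∀ g : L, ⁅x, g⁆ ∈ S n)
    (hr : ∀ x g : L, ⁅x, g⁆ ∈ S r) : Group.IsNilpotent (L ⧸ M) := by
  classical
  rw [Subgroup.nilpotent_iff_finite_ascending_central_series]
  refine ⟨r + 1, fun n => if n ≤ r then (S n).map (QuotientGroup.mk' M) else ⊤, ⟨?_, ?_⟩, ?_⟩
  · show (if 0 ≤ r then (S 0).map (QuotientGroup.mk' M) else ⊤) = ⊥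
    rw [if_pos (Nat.zero_le r), eq_bot_iff]
    rintro _ ⟨x, hx, rfl⟩
    rw [Subgroup.mem_bot]
    exact (QuotientGroup.eq_one_iff x).mpr (h0 hx)
  · intro x n hx g
    obtain ⟨g, rfl⟩ := QuotientGroup.mk'_surjective M g
    show ⁅x, QuotientGroup.mk' M g⁆ ∈ (if n ≤ r then (S n).map (QuotientGroup.mk' M) else ⊤)
    by_cases hn : n < r
    · have hx' : x ∈ (S (n + 1)).map (QuotientGroup.mk' M) := by
        have : (if n + 1 ≤ r then (S (n + 1)).map (QuotientGroup.mk' M) else ⊤) =
          (S (n + 1)).map (QuotientGroup.mk' M) := if_pos hn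
        rw [← this]
        exact hx
      obtain ⟨y, hy, rfl⟩ := hx'
      rw [if_pos hn.le, ← map_commutatorElement]
      exact ⟨_, hstep y n hn hy g, rfl⟩
    · by_cases hn2 : n ≤ r
      · obtain rfl : n = r := by omega
        obtain ⟨y, rfl⟩ := QuotientGroup.mk'_surjective M x
        rw [if_pos (le_refl n), ← map_commutatorElement]
        exact ⟨_, hr y g, rfl⟩
      · rw [if_neg hn2]
        exact Subgroup.mem_top _
  · show (if r + 1 ≤ r then (S (r + 1)).map (QuotientGroup.mk' M) else ⊤) = ⊤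
    rw [if_neg (by omega)]

/-- powers of a unipotent element -/
theorem nilp_pow {R : Type u} [Ring R] {x : R} {k e : ℕ} (h : (x ^ k - 1) ^ e = 0) (n : ℕ) :
    (x ^ (k * n) - 1) ^ e = 0 := by
  have e1 : x ^ (k * n) - 1 = (∑ i ∈ Finset.range n, (x ^ k) ^ i) * (x ^ k - 1) := by
    rw [geom_sum_mul, pow_mul]
  have hc : Commute (∑ i ∈ Finset.range n, (x ^ k) ^ i) (x ^ k - 1) := by
    refine Commute.sum_left _ _ _ fun i _ => ?_
    exact ((Commute.refl (x ^ k)).pow_left i).sub_right (Commute.one_right _)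
  rw [e1, hc.mul_pow, h, mul_zero]

/-- the case of two generators -/
theorem nilp_main (hall : ST_HALL.{u}) {a b : G} (hgen : Subgroup.closure {a, b} = ⊤)
    (hD : Group.IsNilpotent ↥(commutator G))
    (ha : ∃ k e : ℕ, 1 ≤ k ∧ (fun y => a ^ k * y * (a ^ k)⁻¹ * y⁻¹)^[e] (a * b * a⁻¹ * b⁻¹) ∈
      ⁅commutator G, commutator G⁆)
    (hb : ∃ k e : ℕ, 1 ≤ k ∧ (fun y => b ^ k * y * (b ^ k)⁻¹ * y⁻¹)^[e] (a * b * a⁻¹ * b⁻¹) ∈
      ⁅commutator G, commutator G⁆) :
    ∃ m : ℕ, 1 ≤ m ∧ ∃ L : Subgroup G, Group.IsNilpotent L ∧ a ^ m ∈ L ∧ b ^ m ∈ L := by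
  obtain ⟨k, e, hk, hka⟩ := ha
  obtain ⟨k', e', hk', hkb⟩ := hb
  have hc : a * b * a⁻¹ * b⁻¹ ∈ commutator G := by
    rw [← commutatorElement_def]
    exact Subgroup.commutator_mem_commutator (Subgroup.mem_top a) (Subgroup.mem_top b)
  have hRp : ∀ (z : G) (n i : ℕ) (g : G),
      (nilpR z ^ n - 1) ^ i * nilpR g = nilpR g * (nilpR z ^ n - 1) ^ i := by
    intro z n i g
    have h1 : Commute (nilpR z) (nilpR g) := nilpR_commute z g
    exact (((h1.pow_left n).sub_left (Commute.one_left _)).pow_left i)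
  have hA0 : (nilpR a ^ k - 1) ^ e = 0 := by
    refine nilp_kill hgen _ (hRp a k e) hc ?_
    obtain ⟨h1, h2⟩ := nilpF_iter (a ^ k) ⟨a * b * a⁻¹ * b⁻¹, hc⟩ e
    rw [nilpR_pow] at h1
    rw [← h1, nilpCls_eq_zero, h2]
    exact hka
  have hB0 : (nilpR b ^ k' - 1) ^ e' = 0 := by
    refine nilp_kill hgen _ (hRp b k' e') hc ?_
    obtain ⟨h1, h2⟩ := nilpF_iter (b ^ k') ⟨a * b * a⁻¹ * b⁻¹, hc⟩ e'
    rw [nilpR_pow] at h1
    rw [← h1, nilpCls_eq_zero, h2]
    exact hkb
  set m := k * k' with hm
  set A : AddMonoid.End (NilpE G) := nilpR a ^ m - 1 with hA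
  set B : AddMonoid.End (NilpE G) := nilpR b ^ m - 1 with hB
  have hAe : A ^ e = 0 := nilp_pow hA0 k'
  have hBe : B ^ e' = 0 := by
    have := nilp_pow hB0 k
    rw [mul_comm] at this
    exact this
  have hAB : Commute A B := by
    have h1 : Commute (nilpR a) (nilpR b) := nilpR_commute a b
    exact ((h1.pow_pow m m).sub_right (Commute.one_right _)).sub_left
      ((Commute.one_left _))
  have hAR : ∀ g, Commute A (nilpR g) := fun g => by
    have := hRp a m 1 g
    rw [pow_one] at this
    exact this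
  have hBR : ∀ g, Commute B (nilpR g) := fun g => by
    have := hRp b m 1 g
    rw [pow_one] at this
    exact this
  let K : ℕ → AddSubgroup (NilpE G) := fun i =>
    { carrier := {v | ∀ j l, j + l = i → (A ^ j * B ^ l) v = 0}
      zero_mem' := fun j l _ => map_zero _
      add_mem' := fun {x y} hx hy j l hjl => by rw [map_add, hx j l hjl, hy j l hjl, add_zero]
      neg_mem' := fun {x} hx j l hjl => by rw [map_neg, hx j l hjl, neg_zero] }
  have hK0 : ∀ v, v ∈ K 0 → v = 0 := by
    intro v hv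
    have := hv 0 0 rfl
    rw [pow_zero, pow_zero, one_mul] at this
    exact this
  have hKr : ∀ v, v ∈ K (e + e') := by
    intro v j l hjl
    by_cases hj : e ≤ j
    · have : A ^ j = 0 := by
        rw [← Nat.sub_add_cancel hj, pow_add, hAe, mul_zero]
      rw [this, zero_mul]
      rfl
    · have : B ^ l = 0 := by
        rw [← Nat.sub_add_cancel (show e' ≤ l by omega), pow_add, hBe, mul_zero]
      rw [this, mul_zero]
      rfl
  have hKg : ∀ i v g, v ∈ K i → nilpR g v ∈ K i := by
    intro i v g hv j l hjl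
    have h1 : Commute (A ^ j * B ^ l) (nilpR g) :=
      ((hAR g).pow_left j).mul_left ((hBR g).pow_left l)
    have h2 : (A ^ j * B ^ l) (nilpR g v) = nilpR g ((A ^ j * B ^ l) v) := by
      have := congrArg (fun f : AddMonoid.End (NilpE G) => f v) h1.eq
      exact this
    rw [h2, hv j l hjl, map_zero]
  have hKA : ∀ i v, v ∈ K (i + 1) → A v ∈ K i := by
    intro i v hv j l hjl
    have h1 : (A ^ j * B ^ l) * A = A ^ (j + 1) * B ^ l := by
      rw [mul_assoc, ((hAB.symm).pow_left l).eq, ← mul_assoc, pow_succ]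
    have h2 : (A ^ j * B ^ l) (A v) = (A ^ (j + 1) * B ^ l) v := by
      rw [← h1]
      rfl
    rw [h2]
    exact hv (j + 1) l (by omega)
  have hKB : ∀ i v, v ∈ K (i + 1) → B v ∈ K i := by
    intro i v hv j l hjl
    have h1 : (A ^ j * B ^ l) * B = A ^ j * B ^ (l + 1) := by
      rw [mul_assoc, pow_succ]
    have h2 : (A ^ j * B ^ l) (B v) = (A ^ j * B ^ (l + 1)) v := by
      rw [← h1]
      rfl
    rw [h2]
    exact hv j (l + 1) (by omega)
  let L : Subgroup G := Subgroup.closure {a ^ m, b ^ m} ⊔ commutator G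
  have hLD : commutator G ≤ L := le_sup_right
  have haL : a ^ m ∈ L := (le_sup_left : Subgroup.closure {a ^ m, b ^ m} ≤ L)
    (Subgroup.subset_closure (Set.mem_insert _ _))
  have hbL : b ^ m ∈ L := (le_sup_left : Subgroup.closure {a ^ m, b ^ m} ≤ L)
    (Subgroup.subset_closure (Set.mem_insert_of_mem _ rfl))
  have hact : ∀ i, ∀ l ∈ L, ∀ v, v ∈ K (i + 1) → nilpR l v - v ∈ K i := by
    intro i
    let S : Subgroup G :=
      { carrier := {l | ∀ v, v ∈ K (i + 1) → nilpR l v - v ∈ K i}
        one_mem' := fun v _ => by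
          rw [nilpR_one]
          show v - v ∈ K i
          rw [sub_self]
          exact zero_mem _
        mul_mem' := fun {x y} hx hy v hv => by
          have e1 : nilpR (x * y) v - v = nilpR x (nilpR y v - v) + (nilpR x v - v) := by
            rw [nilpR_mul, map_sub]
            show nilpR x (nilpR y v) - v = _
            abel
          rw [e1]
          exact add_mem (hKg i _ x (hy v hv)) (hx v hv)
        inv_mem' := fun {x} hx v hv => by
          have e1 : nilpR x⁻¹ v - v = -(nilpR x⁻¹ (nilpR x v - v)) := by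
            rw [map_sub]
            have : nilpR x⁻¹ (nilpR x v) = v := by
              have e2 : nilpR x⁻¹ (nilpR x v) = (nilpR x⁻¹ * nilpR x) v := rfl
              rw [e2, ← nilpR_mul, inv_mul_cancel, nilpR_one]
              rfl
            rw [this]
            abel
          rw [e1]
          exact neg_mem (hKg i _ x⁻¹ (hx v hv)) }
    have hle : L ≤ S := by
      refine sup_le ?_ ?_
      · rw [Subgroup.closure_le]
        rintro s (rfl | hs)
        · intro v hv
          have e1 : nilpR (a ^ m) v - v = A v := by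
            rw [nilpR_pow]
            rfl
          rw [e1]
          exact hKA i v hv
        · rw [Set.mem_singleton_iff] at hs
          subst hs
          intro v hv
          have e1 : nilpR (b ^ m) v - v = B v := by
            rw [nilpR_pow]
            rfl
          rw [e1]
          exact hKB i v hv
      · intro d hd v _
        rw [nilpR_mem hd]
        show v - v ∈ K i
        rw [sub_self]
        exact zero_mem _
    exact fun l hl => hle hl
  refine ⟨m, by rw [hm]; exact Nat.mul_pos hk hk', L, ?_, haL, hbL⟩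
  have hNn : ((commutator G).subgroupOf L).Normal := inferInstance
  have hNnil : Group.IsNilpotent ↥((commutator G).subgroupOf L) :=
    (Group.isNilpotent_congr (Subgroup.subgroupOfEquivOfLe hLD)).mpr hD
  refine hall ↥L ((commutator G).subgroupOf L) hNnil ?_
  let Ns : ℕ → Subgroup ↥L := fun i =>
    { carrier := {x | ∃ h : (x : G) ∈ commutator G, nilpCls (G := G) ⟨(x : G), h⟩ ∈ K i}
      one_mem' := ⟨one_mem _, by
        have : (⟨((1 : ↥L) : G), one_mem _⟩ : ↥(commutator G)) = 1 := rfl
        rw [this, nilpCls_one]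
        exact zero_mem _⟩
      mul_mem' := by
        rintro x y ⟨hx, h1⟩ ⟨hy, h2⟩
        refine ⟨mul_mem hx hy, ?_⟩
        have : (⟨((x * y : ↥L) : G), mul_mem hx hy⟩ : ↥(commutator G)) = ⟨x, hx⟩ * ⟨y, hy⟩ := rfl
        rw [this, nilpCls_mul]
        exact add_mem h1 h2
      inv_mem' := by
        rintro x ⟨hx, h1⟩
        refine ⟨inv_mem hx, ?_⟩
        have : (⟨((x⁻¹ : ↥L) : G), inv_mem hx⟩ : ↥(commutator G)) = ⟨x, hx⟩⁻¹ := rfl
        rw [this, nilpCls_inv]
        exact neg_mem h1 }
  have hcomm : ∀ x g : ↥L, ((⁅x, g⁆ : ↥L) : G) ∈ commutator G := fun x g =>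
    Subgroup.commutator_mem_commutator (Subgroup.mem_top (x : G)) (Subgroup.mem_top (g : G))
  refine nilp_quot _ (e + e') Ns ?_ ?_ ?_
  · rintro x ⟨hx, h1⟩
    have h2 := (nilpCls_eq_zero _).mp (hK0 _ h1)
    have h3 : (⁅(commutator G).subgroupOf L, (commutator G).subgroupOf L⁆ : Subgroup ↥L).map
        L.subtype = ⁅commutator G, commutator G⁆ := by
      rw [Subgroup.map_commutator, Subgroup.map_subgroupOf_eq_of_le hLD]
    have h4 : (x : G) ∈ (⁅(commutator G).subgroupOf L, (commutator G).subgroupOf L⁆ :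
        Subgroup ↥L).map L.subtype := by
      rw [h3]
      exact h2
    obtain ⟨y, hy, hyx⟩ := h4
    have : y = x := Subtype.ext hyx
    rw [← this]
    exact hy
  · rintro x n _ ⟨hx, h1⟩ g
    refine ⟨hcomm x g, ?_⟩
    have e1 : (⟨((⁅x, g⁆ : ↥L) : G), hcomm x g⟩ : ↥(commutator G)) =
        ⟨x, hx⟩ * (MulAut.conjNormal (g : G) ⟨x, hx⟩)⁻¹ := by
      refine Subtype.ext ?_
      simp only [commutatorElement_def]
      push_cast
      simp only [MulAut.conjNormal_apply]
      group
    rw [e1, nilpCls_mul, nilpCls_inv, ← nilpR_cls]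
    have h2 := hact n g g.2 _ h1
    have e2 : ∀ u v : NilpE G, u + -v = -(v - u) := fun u v => by abel
    rw [e2]
    exact neg_mem h2
  · intro x g
    exact ⟨hcomm x g, hKr _⟩

end

theorem st_NILP (hall : ST_HALL.{u}) : ST_NILP.{u} := by
  intro Γ _ a b hD ha hb
  set H : Subgroup Γ := Subgroup.closure {a, b} with hH
  have haH : a ∈ H := Subgroup.subset_closure (Set.mem_insert _ _)
  have hbH : b ∈ H := Subgroup.subset_closure (Set.mem_insert_of_mem _ rfl)
  let a₁ : ↥H := ⟨a, haH⟩
  let b₁ : ↥H := ⟨b, hbH⟩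
  have hgen : Subgroup.closure ({a₁, b₁} : Set ↥H) = ⊤ := by
    have h1 := Subgroup.closure_closure_coe_preimage (k := ({a, b} : Set Γ))
    have h2 : (((↑) : ↥(Subgroup.closure ({a, b} : Set Γ)) → Γ) ⁻¹' ({a, b} : Set Γ)) =
        ({a₁, b₁} : Set ↥H) := by
      ext x
      simp only [Set.mem_preimage, Set.mem_insert_iff, Set.mem_singleton_iff]
      constructor
      · rintro (h | h)
        · exact Or.inl (Subtype.ext h)
        · exact Or.inr (Subtype.ext h)
      · rintro (h | h)
        · exact Or.inl (by rw [h])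
        · exact Or.inr (by rw [h])
    rw [h2] at h1
    exact h1
  have hmap : (commutator ↥H).map H.subtype = ⁅H, H⁆ := Subgroup.map_subtype_commutator H
  have hD1 : Group.IsNilpotent ↥(commutator ↥H) := by
    have e1 : ↥(commutator ↥H) ≃* ↥((commutator ↥H).map H.subtype) :=
      Subgroup.equivMapOfInjective _ _ (Subgroup.subtype_injective H)
    rw [Group.isNilpotent_congr e1, hmap]
    exact hD
  have hmap2 : (⁅commutator ↥H, commutator ↥H⁆ : Subgroup ↥H).map H.subtype =
      ⁅(⁅H, H⁆ : Subgroup Γ), ⁅H, H⁆⁆ := by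
    rw [Subgroup.map_commutator, hmap]
  have hmem : ∀ x : ↥H, (x : Γ) ∈ (⁅(⁅H, H⁆ : Subgroup Γ), ⁅H, H⁆⁆ : Subgroup Γ) →
      x ∈ (⁅commutator ↥H, commutator ↥H⁆ : Subgroup ↥H) := by
    intro x hx
    rw [← hmap2] at hx
    obtain ⟨y, hy, hyx⟩ := hx
    have : y = x := Subtype.ext hyx
    rw [← this]
    exact hy
  have hiter : ∀ (z x : ↥H) (e : ℕ), (((fun y : ↥H => z * y * z⁻¹ * y⁻¹)^[e] x : ↥H) : Γ) =
      (fun y : Γ => (z : Γ) * y * (z : Γ)⁻¹ * y⁻¹)^[e] (x : Γ) := by
    intro z x e
    induction e with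
    | zero => rfl
    | succ e ih =>
      rw [Function.iterate_succ_apply', Function.iterate_succ_apply', ← ih]
      rfl
  obtain ⟨k, e, hk, hka⟩ := ha
  obtain ⟨k', e', hk', hkb⟩ := hb
  obtain ⟨m, hm, L, hL, haL, hbL⟩ := nilp_main hall hgen hD1
    ⟨k, e, hk, hmem _ (by
      rw [hiter]
      exact hka)⟩
    ⟨k', e', hk', hmem _ (by
      rw [hiter]
      exact hkb)⟩
  refine ⟨m, hm, ?_⟩
  have hL2 : Group.IsNilpotent ↥(L.map H.subtype) :=
    (Group.isNilpotent_congr (Subgroup.equivMapOfInjective L H.subtype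
      (Subgroup.subtype_injective H))).mp hL
  have hle : Subgroup.closure {a ^ m, b ^ m} ≤ L.map H.subtype := by
    rw [Subgroup.closure_le]
    rintro s (rfl | hs)
    · exact ⟨a₁ ^ m, haL, rfl⟩
    · rw [Set.mem_singleton_iff] at hs
      subst hs
      exact ⟨b₁ ^ m, hbL, rfl⟩
  exact (Group.isNilpotent_congr (Subgroup.subgroupOfEquivOfLe hle)).mp inferInstance

end Pool.Agent.Helper5.Nil
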